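import Pool.Agent.Helper36.RI.Goals

/-!
# Project RF, existence part, packet FRL: existence of framed solutions
-/

namespace Pool.Agent.Helper16.RI

open Set Filter Topology MeasureTheory Pool.Agent.Helper36.RS Pool.Agent.Helper73.RF
open Pool.Agent.Helper36.RI
open Pool.Agent.Helper47.RF hiding eps
open scoped ContDiff

theorem ell_aux (A A0 θ : Fin 3 → Fin 3 → ℝ) (M : ℝ) (hM : 1 ≤ M)
    (hinv : ∀ a c, ∑ i, A0 a i * θ i c = if a = c then 1 else 0)
    (hθ : ∀ i c, |θ i c| ≤ M) (hA : ∀ a i, |A a i - A0 a i| ≤ 1 / (18 * M)) (ξ : Fin 3 → ℝ) :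
    1 / (108 * M ^ 2) * ∑ i, ξ i ^ 2 ≤ ∑ c, (∑ i, A c i * ξ i) ^ 2 := by
  have hM0 : 0 < M := by linarith
  have hmat : (Matrix.of A0) * (Matrix.of θ) = 1 := by
    ext a c
    rw [Matrix.mul_apply, Matrix.one_apply]
    exact hinv a c
  have hmat' : (Matrix.of θ) * (Matrix.of A0) = 1 := mul_eq_one_comm.1 hmat
  have hinv' : ∀ j i, ∑ c, θ j c * A0 c i = if j = i then 1 else 0 := by
    intro j i
    have h := congrFun (congrFun hmat' j) i
    rw [Matrix.mul_apply, Matrix.one_apply] at h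
    exact h
  have h1 : ∀ j, ξ j = ∑ c, θ j c * (∑ i, A0 c i * ξ i) := by
    intro j
    have e : ∑ c, θ j c * (∑ i, A0 c i * ξ i) = ∑ i, (∑ c, θ j c * A0 c i) * ξ i := by
      simp only [Finset.mul_sum, Finset.sum_mul]
      rw [Finset.sum_comm]
      refine Finset.sum_congr rfl fun i _ => Finset.sum_congr rfl fun c _ => by ring
    rw [e]
    simp only [hinv']
    simp
  set s : ℝ := ∑ i, |ξ i| with hs
  set z : ℝ := ∑ c, |∑ i, A c i * ξ i| with hz
  have h2 : ∀ c, |∑ i, A0 c i * ξ i| ≤ |∑ i, A c i * ξ i| + 1 / (18 * M) * s := by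
    intro c
    have e : ∑ i, A0 c i * ξ i = ∑ i, A c i * ξ i - ∑ i, (A c i - A0 c i) * ξ i := by
      rw [← Finset.sum_sub_distrib]
      refine Finset.sum_congr rfl fun i _ => by ring
    have e2 : |∑ i, (A c i - A0 c i) * ξ i| ≤ 1 / (18 * M) * s := by
      refine (Finset.abs_sum_le_sum_abs _ _).trans ?_
      rw [hs, Finset.mul_sum]
      refine Finset.sum_le_sum fun i _ => ?_
      rw [abs_mul]
      exact mul_le_mul_of_nonneg_right (hA c i) (abs_nonneg _)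
    rw [e]
    refine (abs_sub _ _).trans ?_
    linarith
  have h3 : ∀ j, |ξ j| ≤ M * (z + 3 * (1 / (18 * M) * s)) := by
    intro j
    calc |ξ j| = |∑ c, θ j c * (∑ i, A0 c i * ξ i)| := by rw [← h1 j]
      _ ≤ ∑ c, |θ j c * (∑ i, A0 c i * ξ i)| := Finset.abs_sum_le_sum_abs _ _
      _ ≤ ∑ c, M * (|∑ i, A c i * ξ i| + 1 / (18 * M) * s) := by
          refine Finset.sum_le_sum fun c _ => ?_
          rw [abs_mul]
          exact mul_le_mul (hθ j c) (h2 c) (abs_nonneg _) hM0.le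
      _ = M * (z + 3 * (1 / (18 * M) * s)) := by
          rw [← Finset.mul_sum, Finset.sum_add_distrib, ← hz]
          simp
  have h4 : s ≤ 3 * (M * (z + 3 * (1 / (18 * M) * s))) := by
    calc s = ∑ i, |ξ i| := hs
      _ ≤ ∑ _i : Fin 3, M * (z + 3 * (1 / (18 * M) * s)) := Finset.sum_le_sum fun i _ => h3 i
      _ = 3 * (M * (z + 3 * (1 / (18 * M) * s))) := by simp
  have h5 : s ≤ 6 * M * z := by
    have e : 3 * (M * (z + 3 * (1 / (18 * M) * s))) = 3 * M * z + s / 2 := by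
      field_simp
      ring
    rw [e] at h4
    linarith
  have hs0 : 0 ≤ s := Finset.sum_nonneg fun i _ => abs_nonneg _
  have h6 : ∑ i, ξ i ^ 2 ≤ s ^ 2 := by
    have e1 : ∀ i, ξ i ^ 2 = |ξ i| ^ 2 := fun i => (sq_abs _).symm
    simp only [e1, hs]
    simp only [Fin.sum_univ_three]
    nlinarith [abs_nonneg (ξ 0), abs_nonneg (ξ 1), abs_nonneg (ξ 2),
      mul_nonneg (abs_nonneg (ξ 0)) (abs_nonneg (ξ 1)),
      mul_nonneg (abs_nonneg (ξ 0)) (abs_nonneg (ξ 2)),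
      mul_nonneg (abs_nonneg (ξ 1)) (abs_nonneg (ξ 2))]
  have h7 : z ^ 2 ≤ 3 * ∑ c, (∑ i, A c i * ξ i) ^ 2 := by
    have e1 : ∀ c, (∑ i, A c i * ξ i) ^ 2 = |∑ i, A c i * ξ i| ^ 2 := fun c => (sq_abs _).symm
    simp only [e1, hz]
    rw [Fin.sum_univ_three (fun c => |∑ i, A c i * ξ i|),
      Fin.sum_univ_three (fun c => |∑ i, A c i * ξ i| ^ 2)]
    nlinarith [sq_nonneg (|∑ i, A 0 i * ξ i| - |∑ i, A 1 i * ξ i|),
      sq_nonneg (|∑ i, A 0 i * ξ i| - |∑ i, A 2 i * ξ i|),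
      sq_nonneg (|∑ i, A 1 i * ξ i| - |∑ i, A 2 i * ξ i|)]
  have h8 : s ^ 2 ≤ (6 * M * z) ^ 2 := pow_le_pow_left₀ hs0 h5 2
  have h9 : ∑ i, ξ i ^ 2 ≤ 108 * M ^ 2 * ∑ c, (∑ i, A c i * ξ i) ^ 2 := by
    calc ∑ i, ξ i ^ 2 ≤ (6 * M * z) ^ 2 := h6.trans h8
      _ = 36 * M ^ 2 * z ^ 2 := by ring
      _ ≤ 36 * M ^ 2 * (3 * ∑ c, (∑ i, A c i * ξ i) ^ 2) :=
          mul_le_mul_of_nonneg_left h7 (by positivity)
      _ = 108 * M ^ 2 * ∑ c, (∑ i, A c i * ξ i) ^ 2 := by ring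
  rw [one_div, inv_mul_le_iff₀ (by positivity)]
  exact h9

section algebra

variable {𝒜 : Type} [CommRing 𝒜] [Algebra ℝ 𝒜] (E : Fin 3 → Derivation ℝ 𝒜 𝒜)
  (A θ P : Fin 3 → Fin 3 → 𝒜)

theorem nab_symm (hP : ∀ a b, P a b = P b a) (c a b : Fin 3) :
    nab E A θ P c a b = nab E A θ P c b a := by
  unfold nab
  rw [hP a b]
  have e1 : ∑ d, FR.Gam E A θ c a d * P d b = ∑ d, FR.Gam E A θ c a d * P b d :=
    Finset.sum_congr rfl fun d _ => by rw [hP d b]
  have e2 : ∑ d, FR.Gam E A θ c b d * P a d = ∑ d, FR.Gam E A θ c b d * P d a :=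
    Finset.sum_congr rfl fun d _ => by rw [hP a d]
  rw [e1, e2]
  ring

theorem lapF_symm (hP : ∀ a b, P a b = P b a) (a b : Fin 3) :
    lapF E A θ P a b = lapF E A θ P b a := by
  unfold lapF
  refine Finset.sum_congr rfl fun c _ => ?_
  rw [nab_symm E A θ P hP c a b]
  have e0 : ∑ d, FR.Gam E A θ c c d * nab E A θ P d a b =
      ∑ d, FR.Gam E A θ c c d * nab E A θ P d b a :=
    Finset.sum_congr rfl fun d _ => by rw [nab_symm E A θ P hP d a b]
  have e1 : ∑ d, FR.Gam E A θ c a d * nab E A θ P c d b =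
      ∑ d, FR.Gam E A θ c a d * nab E A θ P c b d :=
    Finset.sum_congr rfl fun d _ => by rw [nab_symm E A θ P hP c d b]
  have e2 : ∑ d, FR.Gam E A θ c b d * nab E A θ P c a d =
      ∑ d, FR.Gam E A θ c b d * nab E A θ P c d a :=
    Finset.sum_congr rfl fun d _ => by rw [nab_symm E A θ P hP c a d]
  rw [e0, e1, e2]
  ring

theorem QP_symm (hP : ∀ a b, P a b = P b a) (a b : Fin 3) : QP P a b = QP P b a := by
  unfold QP
  have e1 : ∑ c, P a c * P c b = ∑ c, P b c * P c a :=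
    Finset.sum_congr rfl fun c _ => by rw [hP a c, hP c b]; ring
  rw [e1, hP a b]
  congr 1
  by_cases h : a = b
  · rw [if_pos h, if_pos h.symm]
  · rw [if_neg h, if_neg fun h' => h h'.symm]

theorem FPf_symm (hP : ∀ a b, P a b = P b a) (a b : Fin 3) :
    FPf E A θ P a b = FPf E A θ P b a := by
  unfold FPf
  rw [lapF_symm E A θ P hP, QP_symm P hP]

end algebra

theorem rep_idx {Y : Type*} (F : Fin 3 → Fin 3 → Y) (hF : ∀ a b, F a b = F b a) (a b : Fin 3) :
    F (rep1 (idx a b)) (rep2 (idx a b)) = F a b := by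
  fin_cases a <;> fin_cases b <;>
    first
      | rfl
      | exact hF _ _

theorem idx_symm (a b : Fin 3) : idx a b = idx b a := by
  fin_cases a <;> fin_cases b <;> rfl

theorem frl : Pool.Agent.Helper36.RI.G_FRL := by
  intro hQL hINS hJQ A0 θ0 P0 hInv hP0
  obtain ⟨D, hD1, hD2, hD3, hD4⟩ := hINS
  -- a bound of the coframe
  have hb : ∃ M : ℝ, 1 ≤ M ∧ ∀ i c, ∀ x, |(θ0 i c).1 x| ≤ M := by
    choose C hC using fun p : Fin 3 × Fin 3 => c4.1 (θ0 p.1 p.2).1 (θ0 p.1 p.2).2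
    refine ⟨1 + ∑ p, (|C p| + |(θ0 p.1 p.2).1 0|), ?_, fun i c x => ?_⟩
    · have : 0 ≤ ∑ p, (|C p| + |(θ0 p.1 p.2).1 0|) :=
        Finset.sum_nonneg fun p _ => by positivity
      linarith
    · have h1 := hC (i, c) x
      have h2 : |C (i, c)| + |(θ0 i c).1 0| ≤ ∑ p, (|C p| + |(θ0 p.1 p.2).1 0|) :=
        Finset.single_le_sum (f := fun p : Fin 3 × Fin 3 => |C p| + |(θ0 p.1 p.2).1 0|)
          (fun p _ => by positivity) (Finset.mem_univ (i, c))
      have h3 := le_abs_self (C (i, c))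
      simp only at h1
      linarith
  obtain ⟨M, hM1, hM⟩ := hb
  have hM0 : 0 < M := by linarith
  set u0 : II → XS := Sum.elim (fun p => A0 p.1 p.2) (fun p => θ0 p.1 p.2) with hu0
  set v0 : Fin 6 → XS := fun j => P0 (rep1 j) (rep2 j) with hv0
  have hEll : D.Ell u0 (1 / (108 * M ^ 2)) (1 / (18 * M)) := by
    intro u hu x hx ξ
    rw [hD4 u x ξ]
    refine ell_aux (fun c i => (uA u c i).1 x) (fun c i => (A0 c i).1 x)
      (fun i c => (θ0 i c).1 x) M hM1 (fun a c => hInv x hx a c) (fun i c => hM i c x)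
      (fun a i => ?_) ξ
    exact hu (Sum.inl (a, i)) x hx
  obtain ⟨τ, hτ, u, v, hu0', hv0', hu, hv⟩ := hQL II (Fin 6) D u0 v0 (1 / (108 * M ^ 2))
    (1 / (18 * M)) (by positivity) (by positivity) hEll
  obtain ⟨hju, hjv⟩ := hJQ II (Fin 6) D τ u v hu hv
  refine ⟨τ, hτ, fun t => uA (u t), fun t => uth (u t), fun t => vP (v t), ?_, ?_, ?_, ?_⟩
  · have hs : ∀ t a b, vP (v t) a b = vP (v t) b a := by
      intro t a b
      unfold vP
      rw [idx_symm]
    refine ⟨hs, fun a i => ?_, fun i a => ?_, fun a b => ?_, fun a i => ?_, fun i a => ?_,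
      fun a b => ?_⟩
    · have h := hu (Sum.inl (a, i))
      simp only [hD1] at h
      exact h
    · have h := hu (Sum.inr (i, a))
      simp only [hD2] at h
      exact h
    · have h := hv (idx a b)
      simp only [hD3] at h
      have e : ∀ t, FPf Ed (uA (u t)) (uth (u t)) (vP (v t)) (rep1 (idx a b)) (rep2 (idx a b)) =
          FPf Ed (uA (u t)) (uth (u t)) (vP (v t)) a b := fun t =>
        rep_idx (fun a b => FPf Ed (uA (u t)) (uth (u t)) (vP (v t)) a b)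
          (FPf_symm Ed _ _ _ (hs t)) a b
      simp only [e] at h
      exact h
    · exact hju (Sum.inl (a, i))
    · exact hju (Sum.inr (i, a))
    · exact hjv (idx a b)
  · funext a i
    simp only [uA, hu0', hu0, Sum.elim_inl]
  · funext i a
    simp only [uth, hu0', hu0, Sum.elim_inr]
  · funext a b
    simp only [vP, hv0', hv0]
    exact rep_idx P0 hP0 a b

end Pool.Agent.Helper16.RI
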